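import Mathlib

/-! The certificate for five variables: a symmetric function of five control points of the curve
`ρ ↦ (3 ρ, 3 ρ², ρ³)`, `0 ≤ ρ ≤ 40`, with integral coefficients. -/

set_option autoImplicit false

namespace Pool.Agent.H50.FV

/-- a point: three coordinates -/
structure Pt where
  /-- first coordinate -/
  a : ℤ
  /-- second coordinate -/
  b : ℤ
  /-- third coordinate -/
  c : ℤ

/-- the state of the computation: the number of points, the sums of the coordinates, the sum of the pair terms
and the product of the first coordinates -/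
structure St where
  /-- number of points -/
  n : ℤ
  /-- sum of the first coordinates -/
  x : ℤ
  /-- sum of the second coordinates -/
  y : ℤ
  /-- sum of the third coordinates -/
  z : ℤ
  /-- sum of the pair terms -/
  s : ℤ
  /-- product of the first coordinates -/
  p : ℤ

/-- a further point -/
def add : St → Pt → St
  | ⟨n, x, y, z, s, p⟩, ⟨a, b, c⟩ =>
    ⟨n + 1, x + a, y + b, z + c,
      s + (2974499001929 * n - 70692564754 * (x + n * a) + 246917667 * (y + n * b) + 30909179 * (z + n * c)
        + (5529560686 * a - 300420299 * b + 14434352 * c) * x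
        + (- 300420299 * a + 23882409 * b - 1280853 * c) * y
        + (14434352 * a - 1280853 * b + 77443 * c) * z), p * a⟩

/-- the empty state -/
def st0 : St := ⟨0, 0, 0, 0, 0, 1⟩

/-- all multisets of `n` points of the list -/
def go : ℕ → St → List Pt → Bool
  | 0, st, _ => decide (10000 * st.p ≤ st.s)
  | n + 1, st, l => l.tails.all fun t => match t with
    | [] => true
    | q :: _ => go n (add st q) t

/-- the control points -/
def pts : List Pt :=
  [⟨0, 0, 0⟩, ⟨8, 0, 0⟩, ⟨16, 64, 0⟩, ⟨24, 192, 512⟩, ⟨30, 288, 896⟩, ⟨36, 420, 1568⟩, ⟨42, 588, 2744⟩,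
    ⟨48, 756, 3920⟩, ⟨54, 960, 5600⟩, ⟨60, 1200, 8000⟩, ⟨66, 1440, 10400⟩, ⟨72, 1716, 13520⟩, ⟨78, 2028, 17576⟩,
    ⟨85, 2392, 22308⟩, ⟨92, 2805, 28314⟩, ⟨99, 3267, 35937⟩, ⟨106, 3729, 43560⟩, ⟨113, 4240, 52800⟩,
    ⟨120, 4800, 64000⟩]

set_option maxRecDepth 100000 in
theorem go_pts : go 5 st0 pts = true := by decide +kernel

end Pool.Agent.H50.FV
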