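import Pool.Agent.H50.FV.Mean

/-! Euler products and the traces on the cohomology of a product of curves. -/

set_option autoImplicit false
set_option linter.unusedSectionVars false

namespace Pool.Agent.H50.FV

open Complex Filter Topology NumberField IsDedekindDomain MeasureTheory
  Pool.Agent.W540.BE Pool.Agent.TH553.RS Pool.Agent.TH553.ST
open Pool.Agent.X289.Dens Pool.Agent.X289.Cls Pool.Agent.X289.Bc Pool.Agent.X289.SymM
  Pool.Agent.X289.Uch Pool.Agent.X289.Al Pool.Agent.X289.DensM Pool.Agent.X289.Main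
  Pool.Agent.X289.Multi Pool.Agent.X289.Three Pool.Agent.X289.Four

/-- the eigenvalues of a curve -/
noncomputable def ev (t : ℝ) (b : Bool) : ℂ := Complex.exp (((if b then t else -t : ℝ) : ℂ) * I)

theorem norm_ev (t : ℝ) (b : Bool) : ‖ev t b‖ = 1 := by
  unfold ev
  exact Complex.norm_exp_ofReal_mul_I _

theorem ev_add (t : ℝ) : ev t true + ev t false = ((2 * Real.cos t : ℝ) : ℂ) := by
  simp only [ev, if_true, Bool.false_eq_true, if_false]
  push_cast
  rw [Complex.cos, neg_mul]
  ring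

theorem ev_mul (t : ℝ) : ev t true * ev t false = 1 := by
  simp only [ev, if_true, Bool.false_eq_true, if_false]
  rw [← Complex.exp_add]
  push_cast
  rw [show (t : ℂ) * I + -(t : ℂ) * I = 0 by ring, Complex.exp_zero]

section
open Polynomial

/-- the multiplicities -/
noncomputable def nn (A : Finset (Fin 5)) (i : ℕ) : ℕ :=
  ((X ^ A.card * (1 + X ^ 2) ^ (Finset.univ \ A).card : ℕ[X])).coeff i

theorem nn_empty (i : ℕ) : nn ∅ i = if Even i then Nat.choose 5 (i / 2) else 0 := by
  unfold nn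
  have e : ((X : ℕ[X]) ^ (∅ : Finset (Fin 5)).card * (1 + X ^ 2) ^ (Finset.univ \ (∅ : Finset (Fin 5))).card) =
      expand ℕ 2 ((1 + X) ^ 5) := by
    simp
  rw [e, coeff_expand (by norm_num), coeff_one_add_X_pow]
  simp only [even_iff_two_dvd, Nat.cast_id]

theorem nn_univ (i : ℕ) : nn Finset.univ i = if i = 5 then 1 else 0 := by
  unfold nn
  have e : ((X : ℕ[X]) ^ (Finset.univ : Finset (Fin 5)).card *
      (1 + X ^ 2) ^ (Finset.univ \ (Finset.univ : Finset (Fin 5))).card) = X ^ 5 := by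
    simp
  rw [e, coeff_X_pow]

theorem coh_sum (t : Fin 5 → ℝ) (i : ℕ) :
    ∑ S : {S : Finset (Fin 5 × Bool) // S.card = i}, ∏ p ∈ S.1, ev (t p.1) p.2 =
      ((∑ A : Finset (Fin 5), (nn A i : ℝ) * ∏ j ∈ A, (2 * Real.cos (t j)) : ℝ) : ℂ) := by
  classical
  set P : ℂ[X] := ∏ p : Fin 5 × Bool, (1 + C (ev (t p.1) p.2) * X) with hP
  have h1 : P.coeff i = ∑ S : {S : Finset (Fin 5 × Bool) // S.card = i}, ∏ p ∈ S.1, ev (t p.1) p.2 := by
    rw [hP, Finset.prod_one_add, finsetSum_coeff]
    have e : ∀ S : Finset (Fin 5 × Bool), (∏ p ∈ S, (C (ev (t p.1) p.2) * X : ℂ[X])).coeff i =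
        if S.card = i then ∏ p ∈ S, ev (t p.1) p.2 else 0 := by
      intro S
      rw [Finset.prod_mul_distrib, Finset.prod_const, ← map_prod, coeff_C_mul, coeff_X_pow]
      by_cases h : i = S.card
      · rw [if_pos h, if_pos h.symm, mul_one]
      · rw [if_neg h, if_neg (fun h' => h h'.symm), mul_zero]
    simp only [e]
    rw [Finset.powerset_univ, ← Finset.sum_filter]
    exact (Finset.sum_subtype _ (fun S => by simp) _)
  have h2 : P.coeff i = ∑ A : Finset (Fin 5), (nn A i : ℂ) * ∏ j ∈ A, ((2 * Real.cos (t j) : ℝ) : ℂ) := by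
    have e : P = ∏ j : Fin 5, (C ((2 * Real.cos (t j) : ℝ) : ℂ) * X + (1 + X ^ 2)) := by
      rw [hP, Fintype.prod_prod_type]
      refine Finset.prod_congr rfl fun j _ => ?_
      rw [Fintype.prod_bool, ← ev_add, map_add]
      have h := ev_mul (t j)
      have h' : (C (ev (t j) true) : ℂ[X]) * C (ev (t j) false) = 1 := by
        rw [← map_mul, h, map_one]
      linear_combination X ^ 2 * h'
    rw [e, Finset.prod_add, finsetSum_coeff, Finset.powerset_univ]
    refine Finset.sum_congr rfl fun A _ => ?_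
    rw [Finset.prod_mul_distrib, Finset.prod_const, Finset.prod_const, ← map_prod, mul_assoc, coeff_C_mul,
      mul_comm]
    congr 1
    unfold nn
    have e2 : ((X : ℂ[X]) ^ A.card * (1 + X ^ 2) ^ (Finset.univ \ A).card) =
        ((X ^ A.card * (1 + X ^ 2) ^ (Finset.univ \ A).card : ℕ[X])).map (Nat.castRingHom ℂ) := by
      simp
    rw [e2, coeff_map]
    rfl
  rw [← h1, h2]
  push_cast
  rfl

end

section
variable {K : Type} [Field K] [NumberField K] {U : Ultrafilter ℝ}
  (hU : (U : Filter ℝ) ≤ 𝓝[>] 0)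

theorem bd_A (θ : Fin 5 → HeightOneSpectrum (𝓞 K) → ℝ) (A : Finset (Fin 5)) :
    Bd fun v => ∏ j ∈ A, (2 * Real.cos (θ j v)) :=
  bd_prod (θ := θ) A (f := fun _ x => 2 * x) fun _ => by fun_prop

theorem J_two : J (dk 1) (fun x => 2 * x) = 0 := by
  have h := J_C 1
  rw [if_neg one_ne_zero] at h
  have e : Cf 1 = fun x => 2 * x := funext Cf_one
  rwa [e] at h

include hU in
/-- one or two curves -/
theorem M_small {θ : Fin 5 → HeightOneSpectrum (𝓞 K) → ℝ} (hp : ∀ i j, i ≠ j → PL (θ i) (θ j))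
    {A : Finset (Fin 5)} (h1 : 1 ≤ A.card) (h2 : A.card ≤ 2) :
    (M (nm K) U fun v => ∏ j ∈ A, (2 * Real.cos (θ j v))) = 0 := by
  have h3 : A.card = 1 ∨ A.card = 2 := by omega
  have hc : Continuous fun x : ℝ => 2 * x := by fun_prop
  rcases h3 with h3 | h3
  · obtain ⟨a, rfl⟩ := Finset.card_eq_one.1 h3
    simp only [Finset.prod_singleton]
    obtain ⟨b, hb⟩ : ∃ b : Fin 5, a ≠ b := ⟨a + 1, by fin_cases a <;> decide⟩
    have h := M_PL1 hU (hp a b hb) hc
    rw [J_two] at h
    exact h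
  · obtain ⟨a, b, hab, rfl⟩ := Finset.card_eq_two.1 h3
    simp only [Finset.prod_pair hab]
    have h := M_PL hU (hp a b hab) hc hc
    rw [J_two, zero_mul] at h
    exact h

include hU in
/-- the mean of the trace on the cohomology -/
theorem M_coh {θ : Fin 5 → HeightOneSpectrum (𝓞 K) → ℝ} (hp : ∀ i j, i ≠ j → PL (θ i) (θ j))
    (h34 : ∀ A : Finset (Fin 5), A.card = 3 ∨ A.card = 4 →
      (M (nm K) U fun v => ∏ j ∈ A, (2 * Real.cos (θ j v))) = 0) (i : ℕ) :
    (M (nm K) U fun v => ∑ A : Finset (Fin 5), (nn A i : ℝ) * ∏ j ∈ A, (2 * Real.cos (θ j v))) =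
      (if Even i then Nat.choose 5 (i / 2) else 0 : ℕ) +
        (if i = 5 then 1 else 0) * M (nm K) U fun v => ∏ j, (2 * Real.cos (θ j v)) := by
  have hN := sysF K
  rw [M_sum hN hU _ fun A _ => (bd_A θ A).const_mul _]
  have e : ∀ A : Finset (Fin 5), (M (nm K) U fun v => (nn A i : ℝ) * ∏ j ∈ A, (2 * Real.cos (θ j v))) =
      (if A = ∅ then ((if Even i then Nat.choose 5 (i / 2) else 0 : ℕ) : ℝ) else 0) +
      (if A = Finset.univ then
        (if i = 5 then 1 else 0) * M (nm K) U fun v => ∏ j, (2 * Real.cos (θ j v)) else 0) := by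
    intro A
    rw [M_const_mul hN hU (bd_A θ A)]
    rcases Nat.eq_zero_or_pos A.card with h0 | h0
    · rw [Finset.card_eq_zero] at h0
      subst h0
      have hne : (∅ : Finset (Fin 5)) ≠ Finset.univ := by decide
      rw [if_pos rfl, if_neg hne]
      simp only [Finset.prod_empty]
      rw [M_one hN hU, nn_empty, mul_one, add_zero]
    · have hA : A ≠ ∅ := Finset.card_pos.1 h0 |>.ne_empty
      rw [if_neg hA, zero_add]
      by_cases h5 : A = Finset.univ
      · subst h5
        rw [if_pos rfl, nn_univ]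
        push_cast
        rfl
      · rw [if_neg h5]
        have h4 : A.card < 5 := by
          have := (Finset.card_lt_iff_ne_univ A).2 h5
          simpa using this
        rcases le_or_gt A.card 2 with h2 | h2
        · rw [M_small hU hp h0 h2, mul_zero]
        · rw [h34 A (by omega), mul_zero]
  simp only [e]
  rw [Finset.sum_add_distrib, Finset.sum_ite_eq' Finset.univ (∅ : Finset (Fin 5)),
    Finset.sum_ite_eq' Finset.univ (Finset.univ : Finset (Fin 5))]
  simp

end

end Pool.Agent.H50.FV
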