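import Pool.Agent.H50.FV.Cert

/-! The certificate over the real numbers. -/

set_option autoImplicit false

namespace Pool.Agent.H50.FV

/-! ### Soundness of the enumeration -/

lemma add_comm' (st : St) (p q : Pt) : add (add st p) q = add (add st q) p := by
  obtain ⟨n, x, y, z, s, pr⟩ := st
  obtain ⟨a, b, c⟩ := p
  obtain ⟨a', b', c'⟩ := q
  simp only [add, St.mk.injEq]
  refine ⟨trivial, by ring, by ring, by ring, by ring, by ring⟩

lemma foldl_cons (st : St) (q : Pt) (s s' : List Pt) (h : s.Perm (q :: s')) :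
    s.foldl add st = s'.foldl add (add st q) := by
  have : RightCommutative add := ⟨add_comm'⟩
  rw [h.foldl_eq]
  rfl

theorem go_sound : ∀ (n : ℕ) (l : List Pt) (st : St), go n st l = true → ∀ s : List Pt, s.length = n →
    (∀ q ∈ s, q ∈ l) → 10000 * (s.foldl add st).p ≤ (s.foldl add st).s := by
  classical
  intro n
  induction n with
  | zero =>
    intro l st h s hs _
    rw [List.length_eq_zero_iff] at hs
    subst hs
    simpa [go] using h
  | succ n ih =>
    intro l
    induction l with
    | nil =>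
      intro st _ s hs hsl
      exfalso
      cases s with
      | nil => simp at hs
      | cons q s => exact absurd (hsl q List.mem_cons_self) (by simp)
    | cons p l ihl =>
      intro st h s hs hsl
      have h1 : go n (add st p) (p :: l) = true ∧ go (n + 1) st l = true := by
        simp only [go, List.tails_cons, List.all_cons, Bool.and_eq_true] at h ⊢
        exact h
      by_cases hp : p ∈ s
      · obtain ⟨s1, s2, rfl⟩ := List.append_of_mem hp
        have hperm : (s1 ++ p :: s2).Perm (p :: (s1 ++ s2)) := List.perm_middle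
        rw [foldl_cons st p _ _ hperm]
        refine ih _ _ h1.1 _ ?_ fun q hq => ?_
        · have := hperm.length_eq
          rw [hs] at this
          simpa using this.symm
        · refine hsl q ?_
          rw [List.mem_append] at hq ⊢
          rcases hq with h | h
          · exact Or.inl h
          · exact Or.inr (List.mem_cons_of_mem _ h)
      · refine ihl st h1.2 s hs fun q hq => ?_
        rcases List.mem_cons.1 (hsl q hq) with h | h
        · exact absurd (h ▸ hq) hp
        · exact h

/-! ### The real version -/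

/-- a point -/
structure PtR where
  /-- first coordinate -/
  a : ℝ
  /-- second coordinate -/
  b : ℝ
  /-- third coordinate -/
  c : ℝ

/-- a state -/
structure StR where
  /-- number of points -/
  n : ℝ
  /-- sum of the first coordinates -/
  x : ℝ
  /-- sum of the second coordinates -/
  y : ℝ
  /-- sum of the third coordinates -/
  z : ℝ
  /-- sum of the pair terms -/
  s : ℝ
  /-- product of the first coordinates -/
  p : ℝ

/-- a further point -/
noncomputable def addR : StR → PtR → StR
  | ⟨n, x, y, z, s, p⟩, ⟨a, b, c⟩ =>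
    ⟨n + 1, x + a, y + b, z + c,
      s + (2974499001929 * n - 70692564754 * (x + n * a) + 246917667 * (y + n * b) + 30909179 * (z + n * c)
        + (5529560686 * a - 300420299 * b + 14434352 * c) * x
        + (- 300420299 * a + 23882409 * b - 1280853 * c) * y
        + (14434352 * a - 1280853 * b + 77443 * c) * z), p * a⟩

/-- cast of a point -/
noncomputable def cP (q : Pt) : PtR := ⟨q.a, q.b, q.c⟩

/-- cast of a state -/
noncomputable def cS (q : St) : StR := ⟨q.n, q.x, q.y, q.z, q.s, q.p⟩

lemma cS_add (st : St) (q : Pt) : cS (add st q) = addR (cS st) (cP q) := by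
  obtain ⟨n, x, y, z, s, pr⟩ := st
  obtain ⟨a, b, c⟩ := q
  simp only [add, addR, cS, cP, StR.mk.injEq]
  push_cast
  refine ⟨rfl, rfl, rfl, rfl, rfl, rfl⟩

lemma cS_foldl (s : List Pt) : ∀ st : St, cS (s.foldl add st) = (s.map cP).foldl addR (cS st) := by
  induction s with
  | nil => intro st; rfl
  | cons q s ih => intro st; rw [List.foldl_cons, ih, cS_add]; rfl

lemma addR_comm (st : StR) (p q : PtR) : addR (addR st p) q = addR (addR st q) p := by
  obtain ⟨n, x, y, z, s, pr⟩ := st
  obtain ⟨a, b, c⟩ := p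
  obtain ⟨a', b', c'⟩ := q
  simp only [addR, StR.mk.injEq]
  refine ⟨trivial, by ring, by ring, by ring, by ring, by ring⟩

lemma foldR (st : StR) (q : PtR) (s s' : List PtR) (h : s.Perm (q :: s')) :
    s.foldl addR st = addR (s'.foldl addR st) q := by
  have : RightCommutative addR := ⟨addR_comm⟩
  have h2 : s.Perm (s' ++ [q]) := h.trans (List.perm_append_singleton q s').symm
  rw [h2.foldl_eq, List.foldl_append]
  rfl

/-- the margin -/
noncomputable def fin (st : StR) : ℝ := st.s - 10000 * st.p

lemma fin_aff (st : StR) : ∃ A B C D : ℝ, ∀ q : PtR, fin (addR st q) = A + B * q.a + C * q.b + D * q.c := by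
  obtain ⟨n, x, y, z, s, pr⟩ := st
  refine ⟨s + 2974499001929 * n - 70692564754 * x + 246917667 * y + 30909179 * z,
    - 70692564754 * n + 5529560686 * x - 300420299 * y + 14434352 * z - 10000 * pr,
    246917667 * n - 300420299 * x + 23882409 * y - 1280853 * z,
    30909179 * n + 14434352 * x - 1280853 * y + 77443 * z, fun q => ?_⟩
  obtain ⟨a, b, c⟩ := q
  simp only [fin, addR]
  ring

/-- a point of the curve -/
noncomputable def cv (r : ℝ) : PtR := ⟨3 * r, 3 * r ^ 2, r ^ 3⟩

/-- an affine function which is nonnegative at the control points is nonnegative on the curve -/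
lemma bern {A B C D : ℝ} (h : ∀ q ∈ pts, 0 ≤ A + B * (q.a : ℝ) + C * (q.b : ℝ) + D * (q.c : ℝ)) {r : ℝ}
    (h0 : 0 ≤ r) (h1 : r ≤ 40) : 0 ≤ A + B * (3 * r) + C * (3 * r ^ 2) + D * r ^ 3 := by
  simp only [pts, List.forall_mem_cons, List.not_mem_nil, false_imp_iff, implies_true, and_true] at h
  obtain ⟨p0, p1, p2, p3, p4, p5, p6, p7, p8, p9, p10, p11, p12, p13, p14, p15, p16, p17, p18⟩ := h
  push_cast at p0 p1 p2 p3 p4 p5 p6 p7 p8 p9 p10 p11 p12 p13 p14 p15 p16 p17 p18
  -- one cell
  have cell : ∀ u w : ℝ, u < w → u ≤ r → r ≤ w →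
      0 ≤ A + B * (3 * u) + C * (3 * u ^ 2) + D * u ^ 3 →
      0 ≤ A + B * (2 * u + w) + C * (u ^ 2 + 2 * u * w) + D * (u ^ 2 * w) →
      0 ≤ A + B * (u + 2 * w) + C * (2 * u * w + w ^ 2) + D * (u * w ^ 2) →
      0 ≤ A + B * (3 * w) + C * (3 * w ^ 2) + D * w ^ 3 →
      0 ≤ A + B * (3 * r) + C * (3 * r ^ 2) + D * r ^ 3 := by
    intro u w huw hu hw k0 k1 k2 k3
    have hd : 0 < w - u := sub_pos.2 huw
    have a0 := sub_nonneg.2 hw
    have a1 := sub_nonneg.2 hu
    have w0 := mul_nonneg k0 (pow_nonneg a0 3)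
    have w1 := mul_nonneg (mul_nonneg k1 (pow_nonneg a0 2)) a1
    have w2 := mul_nonneg (mul_nonneg k2 a0) (pow_nonneg a1 2)
    have w3 := mul_nonneg k3 (pow_nonneg a1 3)
    have e : (A + B * (3 * r) + C * (3 * r ^ 2) + D * r ^ 3) * (w - u) ^ 3 =
        (A + B * (3 * u) + C * (3 * u ^ 2) + D * u ^ 3) * (w - r) ^ 3
        + 3 * ((A + B * (2 * u + w) + C * (u ^ 2 + 2 * u * w) + D * (u ^ 2 * w)) * (w - r) ^ 2 * (r - u))
        + 3 * ((A + B * (u + 2 * w) + C * (2 * u * w + w ^ 2) + D * (u * w ^ 2)) * (w - r) * (r - u) ^ 2)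
        + (A + B * (3 * w) + C * (3 * w ^ 2) + D * w ^ 3) * (r - u) ^ 3 := by
      ring
    have h3 : 0 < (w - u) ^ 3 := pow_pos hd 3
    by_contra hcon
    push Not at hcon
    have := mul_neg_of_neg_of_pos hcon h3
    rw [e] at this
    linarith
  rcases le_total r 8 with h | h
  · exact cell 0 8 (by norm_num) h0 h (by linarith) (by linarith) (by linarith) (by linarith)
  rcases le_total r 14 with h' | h'
  · exact cell 8 14 (by norm_num) h h' (by linarith) (by linarith) (by linarith) (by linarith)
  rcases le_total r 20 with h2 | h2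
  · exact cell 14 20 (by norm_num) h' h2 (by linarith) (by linarith) (by linarith) (by linarith)
  rcases le_total r 26 with h3 | h3
  · exact cell 20 26 (by norm_num) h2 h3 (by linarith) (by linarith) (by linarith) (by linarith)
  rcases le_total r 33 with h4 | h4
  · exact cell 26 33 (by norm_num) h3 h4 (by linarith) (by linarith) (by linarith) (by linarith)
  · exact cell 33 40 (by norm_num) h4 h1 (by linarith) (by linarith) (by linarith) (by linarith)

/-- the certificate for points of the curve and control points -/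
theorem cert_aux (cs : List ℝ) (hcs : ∀ r ∈ cs, 0 ≤ r ∧ r ≤ 40) : ∀ s : List Pt, (∀ q ∈ s, q ∈ pts) →
    cs.length + s.length = 5 → 0 ≤ fin ((cs.map cv ++ s.map cP).foldl addR (cS st0)) := by
  induction cs with
  | nil =>
    intro s hs hl
    have h := go_sound 5 pts st0 go_pts s (by simpa using hl) hs
    rw [List.map_nil, List.nil_append, ← cS_foldl]
    unfold fin cS
    have h' : (10000 : ℝ) * ((s.foldl add st0).p : ℝ) ≤ ((s.foldl add st0).s : ℝ) := by exact_mod_cast h
    exact sub_nonneg.2 h'
  | cons r cs ih =>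
    intro s hs hl
    have hcs' := fun x hx => hcs x (List.mem_cons_of_mem _ hx)
    obtain ⟨A, B, C, D, h⟩ := fin_aff ((cs.map cv ++ s.map cP).foldl addR (cS st0))
    have hr := hcs r List.mem_cons_self
    have e : (List.map cv (r :: cs) ++ List.map cP s).Perm (cv r :: (cs.map cv ++ s.map cP)) := by
      simp
    rw [foldR _ _ _ _ e, h]
    simp only [cv]
    refine bern (fun q hq => ?_) hr.1 hr.2
    have e2 : (List.map cv cs ++ List.map cP (q :: s)).Perm (cP q :: (cs.map cv ++ s.map cP)) := by
      rw [List.map_cons]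
      exact List.perm_middle
    have h2 := ih hcs' (q :: s) (fun x hx => by
      rcases List.mem_cons.1 hx with h | h
      · rw [h]; exact hq
      · exact hs x h) (by simp only [List.length_cons] at hl ⊢; omega)
    rw [foldR _ _ _ _ e2, h] at h2
    exact h2

/-- the pair term -/
noncomputable def g (r s : ℝ) : ℝ :=
  2974499001929 - 70692564754 * (60 * (r + s)) + 246917667 * (1200 * (r ^ 2 + s ^ 2))
    + 30909179 * (8000 * (r ^ 3 + s ^ 3)) + 5529560686 * (3600 * (r * s))
    - 300420299 * (72000 * (r * s ^ 2 + r ^ 2 * s)) + 14434352 * (480000 * (r * s ^ 3 + r ^ 3 * s))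
    + 23882409 * (1440000 * (r ^ 2 * s ^ 2)) - 1280853 * (9600000 * (r ^ 2 * s ^ 3 + r ^ 3 * s ^ 2))
    + 77443 * (64000000 * (r ^ 3 * s ^ 3))

/-- **The certificate.** -/
theorem cert {x y z u w : ℝ} (hx : 0 ≤ x ∧ x ≤ 2) (hy : 0 ≤ y ∧ y ≤ 2) (hz : 0 ≤ z ∧ z ≤ 2) (hu : 0 ≤ u ∧ u ≤ 2)
    (hw : 0 ≤ w ∧ w ≤ 2) : 7776000000000 * (x * y * z * u * w) ≤
      g x y + g x z + g x u + g x w + g y z + g y u + g y w + g z u + g z w + g u w := by
  have h := cert_aux [20 * x, 20 * y, 20 * z, 20 * u, 20 * w] (by
    intro r hr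
    simp only [List.mem_cons, List.not_mem_nil, or_false] at hr
    rcases hr with h | h | h | h | h <;> rw [h]
    · exact ⟨by linarith [hx.1], by linarith [hx.2]⟩
    · exact ⟨by linarith [hy.1], by linarith [hy.2]⟩
    · exact ⟨by linarith [hz.1], by linarith [hz.2]⟩
    · exact ⟨by linarith [hu.1], by linarith [hu.2]⟩
    · exact ⟨by linarith [hw.1], by linarith [hw.2]⟩) [] (by simp) (by simp)
  simp only [List.map_cons, List.map_nil, List.append_nil, List.foldl_cons, List.foldl_nil, cv, cS, st0, addR,
    fin] at h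
  unfold g
  push_cast at h
  nlinarith [h]

end Pool.Agent.H50.FV
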