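import Pool.Graph.R_pool_sql_team_seeded_64922ed1.X289.Four
import Pool.Agent.H50.FV.Real

/-! The mean of the product of five traces. -/

set_option autoImplicit false
set_option linter.unusedSectionVars false

namespace Pool.Agent.H50.FV

open Complex Filter Topology ComplexConjugate NumberField IsDedekindDomain MeasureTheory
  Pool.Agent.W540.BE Pool.Agent.TH553.RS Pool.Agent.TH553.ST Pool.Agent.H341R2
open Pool.Agent.X289.Dens Pool.Agent.X289.Cls Pool.Agent.X289.Bc Pool.Agent.X289.SymM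
  Pool.Agent.X289.Uch Pool.Agent.X289.Al Pool.Agent.X289.DensM Pool.Agent.X289.Main
  Pool.Agent.X289.Multi Pool.Agent.X289.Three Pool.Agent.X289.Four

theorem J_cub : J (dk 1) (fun x => |x| ^ 3) = 8 / (15 * Real.pi) := by
  have hpi := Real.pi_pos
  unfold J
  have hc : Continuous fun t : ℝ => |Real.cos t| ^ 3 * dk 1 t := by
    unfold dk
    fun_prop
  have h0 : ∫ t in (0 : ℝ)..Real.pi, |Real.cos t| ^ 3 * dk 1 t =
      (∫ t in (0 : ℝ)..(Real.pi / 2), |Real.cos t| ^ 3 * dk 1 t) +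
        ∫ t in (Real.pi / 2)..Real.pi, |Real.cos t| ^ 3 * dk 1 t :=
    (intervalIntegral.integral_add_adjacent_intervals (hc.intervalIntegrable _ _)
      (hc.intervalIntegrable _ _)).symm
  have hd : ∀ t : ℝ, HasDerivAt (fun t => 2 / 3 * Real.sin t ^ 3 - 2 / 5 * Real.sin t ^ 5)
      (Real.cos t ^ 3 * (2 * Real.sin t ^ 2)) t := by
    intro t
    have h := (((Real.hasDerivAt_sin t).pow 3).const_mul (2 / 3 : ℝ)).sub
      (((Real.hasDerivAt_sin t).pow 5).const_mul (2 / 5 : ℝ))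
    refine h.congr_deriv ?_
    norm_num
    have e := Real.sin_sq_add_cos_sq t
    have e2 : Real.cos t ^ 2 = 1 - Real.sin t ^ 2 := by linarith
    have e3 : Real.cos t ^ 3 = (1 - Real.sin t ^ 2) * Real.cos t := by rw [← e2]; ring
    rw [e3]
    ring
  have hc2 : Continuous fun t : ℝ => Real.cos t ^ 3 * (2 * Real.sin t ^ 2) := by fun_prop
  have h1 : ∫ t in (0 : ℝ)..(Real.pi / 2), |Real.cos t| ^ 3 * dk 1 t = 4 / 15 := by
    have e : ∫ t in (0 : ℝ)..(Real.pi / 2), |Real.cos t| ^ 3 * dk 1 t =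
        ∫ t in (0 : ℝ)..(Real.pi / 2), Real.cos t ^ 3 * (2 * Real.sin t ^ 2) := by
      refine intervalIntegral.integral_congr fun t ht => ?_
      rw [Set.uIcc_of_le (by linarith)] at ht
      show |Real.cos t| ^ 3 * dk 1 t = _
      rw [abs_of_nonneg (Real.cos_nonneg_of_mem_Icc ⟨by linarith [ht.1], ht.2⟩)]
      unfold dk
      rw [Nat.cast_one, one_mul]
    rw [e, intervalIntegral.integral_eq_sub_of_hasDerivAt (fun t _ => hd t)
      (hc2.intervalIntegrable _ _)]
    simp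
    norm_num
  have h2 : ∫ t in (Real.pi / 2)..Real.pi, |Real.cos t| ^ 3 * dk 1 t = 4 / 15 := by
    have e : ∫ t in (Real.pi / 2)..Real.pi, |Real.cos t| ^ 3 * dk 1 t =
        ∫ t in (Real.pi / 2)..Real.pi, -(Real.cos t ^ 3 * (2 * Real.sin t ^ 2)) := by
      refine intervalIntegral.integral_congr fun t ht => ?_
      rw [Set.uIcc_of_le (by linarith)] at ht
      show |Real.cos t| ^ 3 * dk 1 t = _
      rw [abs_of_nonpos (Real.cos_nonpos_of_pi_div_two_le_of_le ht.1 (by linarith [ht.2]))]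
      unfold dk
      rw [Nat.cast_one, one_mul]
      ring
    rw [e, intervalIntegral.integral_neg,
      intervalIntegral.integral_eq_sub_of_hasDerivAt (fun t _ => hd t)
      (hc2.intervalIntegrable _ _)]
    simp
    norm_num
  rw [h0, h1, h2]
  field_simp
  norm_num

/-- the moments -/
noncomputable def mo (k : Fin 4) : ℝ := ![1, 8 / (3 * Real.pi), 1, 64 / (15 * Real.pi)] k

/-- absolute value of the trace as a function of the cosine -/
noncomputable def r (x : ℝ) : ℝ := |2 * x|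

theorem cont_r : Continuous r := by
  unfold r
  fun_prop

theorem r_nonneg (x : ℝ) : 0 ≤ r x := abs_nonneg _

theorem r_le {x : ℝ} (h : |x| ≤ 1) : r x ≤ 2 := by
  unfold r
  rw [abs_mul, abs_two]
  linarith

theorem J_r (k : Fin 4) : J (dk 1) (fun x => r x ^ (k : ℕ)) = mo k := by
  have hpi := Real.pi_pos
  fin_cases k
  · have h := J_C 0
    rw [if_pos rfl] at h
    have e : Cf 0 = fun _ => 1 := funext Cf_zero
    rw [e] at h
    simpa [mo] using h
  · have e : (fun x => r x ^ ((1 : Fin 4) : ℕ)) = fun x => 2 * |x| := by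
      funext x
      simp [r, abs_mul]
    show J (dk 1) (fun x => r x ^ ((1 : Fin 4) : ℕ)) = _
    rw [e, J_smul, J_abs]
    show _ = 8 / (3 * Real.pi)
    field_simp
    norm_num
  · have e : (fun x => r x ^ ((2 : Fin 4) : ℕ)) = fun x => 4 * x ^ 2 := by
      funext x
      simp only [r, Fin.val_two, sq_abs]
      ring
    show J (dk 1) (fun x => r x ^ ((2 : Fin 4) : ℕ)) = _
    rw [e, J_smul, J_sq2]
    simp [mo]
  · have e : (fun x => r x ^ ((3 : Fin 4) : ℕ)) = fun x => 8 * |x| ^ 3 := by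
      funext x
      have : ((3 : Fin 4) : ℕ) = 3 := rfl
      rw [this]
      simp only [r, abs_mul, abs_two]
      ring
    show J (dk 1) (fun x => r x ^ ((3 : Fin 4) : ℕ)) = _
    rw [e, J_smul, J_cub]
    show _ = 64 / (15 * Real.pi)
    field_simp
    norm_num

/-- the coefficients of the pair term -/
noncomputable def co (k l : Fin 4) : ℝ :=
  ![![2974499001929, - 70692564754 * 60, 246917667 * 1200, 30909179 * 8000],
    ![- 70692564754 * 60, 5529560686 * 3600, - 300420299 * 72000, 14434352 * 480000],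
    ![246917667 * 1200, - 300420299 * 72000, 23882409 * 1440000, - 1280853 * 9600000],
    ![30909179 * 8000, 14434352 * 480000, - 1280853 * 9600000, 77443 * 64000000]] k l

theorem g_eq (x y : ℝ) : g x y = ∑ k : Fin 4, ∑ l : Fin 4, co k l * (x ^ (k : ℕ) * y ^ (l : ℕ)) := by
  simp only [Fin.sum_univ_four, co, g, Matrix.cons_val, Fin.val_zero, Fin.val_one, Fin.val_two]
  have : ((3 : Fin 4) : ℕ) = 3 := rfl
  rw [this]
  ring

/-- the mean of the pair term -/
noncomputable def gm : ℝ := ∑ k : Fin 4, ∑ l : Fin 4, co k l * (mo k * mo l)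

theorem gm_lt : 10 * gm < 99 / 100 * 7776000000000 := by
  have hpi := Real.pi_pos
  have h1 := Real.pi_gt_d6
  have h2 := Real.pi_lt_d6
  set x : ℝ := 1 / Real.pi with hx
  have hx1 : x < 0.31831 := by
    rw [hx, div_lt_iff₀ hpi]
    nlinarith
  have hx2 : 0.318309 < x := by
    rw [hx, lt_div_iff₀ hpi]
    nlinarith
  have e1 : 8 / (3 * Real.pi) = 8 / 3 * x := by rw [hx]; field_simp
  have e3 : 64 / (15 * Real.pi) = 64 / 15 * x := by rw [hx]; field_simp
  unfold gm
  simp only [Fin.sum_univ_four, co, mo, Matrix.cons_val, e1, e3]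
  nlinarith [mul_pos (sub_pos.2 hx1) (sub_pos.2 hx2)]

variable {K : Type} [Field K] [NumberField K] {U : Ultrafilter ℝ}
  (hU : (U : Filter ℝ) ≤ 𝓝[>] 0)

theorem bd_r (θ : HeightOneSpectrum (𝓞 K) → ℝ) : Bd fun v => r (Real.cos (θ v)) := bd_cos θ cont_r

theorem bd_g (θ θ' : HeightOneSpectrum (𝓞 K) → ℝ) :
    Bd fun v => g (r (Real.cos (θ v))) (r (Real.cos (θ' v))) := by
  have e : (fun v => g (r (Real.cos (θ v))) (r (Real.cos (θ' v)))) = fun v =>
      ∑ k : Fin 4, ∑ l : Fin 4, co k l * (r (Real.cos (θ v)) ^ (k : ℕ) * r (Real.cos (θ' v)) ^ (l : ℕ)) := by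
    funext v
    exact g_eq _ _
  rw [e]
  refine Bd.sum _ fun k _ => Bd.sum _ fun l _ => Bd.const_mul ?_ _
  exact (bd_cos θ (cont_r.pow _)).mul (bd_cos θ' (cont_r.pow _))

include hU in
theorem M_g {θ θ' : HeightOneSpectrum (𝓞 K) → ℝ} (h : PL θ θ') :
    (M (nm K) U fun v => g (r (Real.cos (θ v))) (r (Real.cos (θ' v)))) = gm := by
  have hN := sysF K
  have hb : ∀ k l : Fin 4, Bd fun v => r (Real.cos (θ v)) ^ (k : ℕ) * r (Real.cos (θ' v)) ^ (l : ℕ) :=
    fun k l => (bd_cos θ (cont_r.pow _)).mul (bd_cos θ' (cont_r.pow _))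
  have e : (fun v => g (r (Real.cos (θ v))) (r (Real.cos (θ' v)))) = fun v =>
      ∑ k : Fin 4, ∑ l : Fin 4, co k l * (r (Real.cos (θ v)) ^ (k : ℕ) * r (Real.cos (θ' v)) ^ (l : ℕ)) := by
    funext v
    exact g_eq _ _
  rw [e, M_sum hN hU _ fun k _ => Bd.sum _ fun l _ => (hb k l).const_mul _]
  unfold gm
  refine Finset.sum_congr rfl fun k _ => ?_
  rw [M_sum hN hU _ fun l _ => (hb k l).const_mul _]
  refine Finset.sum_congr rfl fun l _ => ?_
  rw [M_const_mul hN hU (hb k l)]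
  have h1 := M_PL hU h (f := fun x => r x ^ (k : ℕ)) (g := fun x => r x ^ (l : ℕ)) (cont_r.pow _) (cont_r.pow _)
  rw [h1, J_r, J_r]

theorem prod_five (f : Fin 5 → ℝ) : ∏ i, f i = f 0 * f 1 * f 2 * f 3 * f 4 := by
  rw [Fin.prod_univ_five]

theorem bd_five (θ : Fin 5 → HeightOneSpectrum (𝓞 K) → ℝ) : Bd fun v => ∏ i, r (Real.cos (θ i v)) :=
  bd_prod Finset.univ fun _ => cont_r

include hU in
/-- **The mean of the absolute value of the product of five traces is less than 0.99.** -/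
theorem M_abs_lt {θ : Fin 5 → HeightOneSpectrum (𝓞 K) → ℝ} (hp : ∀ i j, i ≠ j → PL (θ i) (θ j)) :
    (M (nm K) U fun v => ∏ i, r (Real.cos (θ i v))) < 99 / 100 := by
  have hN := sysF K
  have hb : ∀ i j, Bd fun v => g (r (Real.cos (θ i v))) (r (Real.cos (θ j v))) := fun i j => bd_g _ _
  have key : ∀ v, 7776000000000 * ∏ i, r (Real.cos (θ i v)) ≤
      g (r (Real.cos (θ 0 v))) (r (Real.cos (θ 1 v))) + g (r (Real.cos (θ 0 v))) (r (Real.cos (θ 2 v)))
      + g (r (Real.cos (θ 0 v))) (r (Real.cos (θ 3 v))) + g (r (Real.cos (θ 0 v))) (r (Real.cos (θ 4 v)))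
      + g (r (Real.cos (θ 1 v))) (r (Real.cos (θ 2 v))) + g (r (Real.cos (θ 1 v))) (r (Real.cos (θ 3 v)))
      + g (r (Real.cos (θ 1 v))) (r (Real.cos (θ 4 v))) + g (r (Real.cos (θ 2 v))) (r (Real.cos (θ 3 v)))
      + g (r (Real.cos (θ 2 v))) (r (Real.cos (θ 4 v))) + g (r (Real.cos (θ 3 v))) (r (Real.cos (θ 4 v))) := by
    intro v
    have hr : ∀ i, 0 ≤ r (Real.cos (θ i v)) ∧ r (Real.cos (θ i v)) ≤ 2 := fun i =>
      ⟨r_nonneg _, r_le (Real.abs_cos_le_one _)⟩
    rw [prod_five]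
    exact cert (hr 0) (hr 1) (hr 2) (hr 3) (hr 4)
  have b1 := (hb 0 1).add (hb 0 2)
  have b2 := b1.add (hb 0 3)
  have b3 := b2.add (hb 0 4)
  have b4 := b3.add (hb 1 2)
  have b5 := b4.add (hb 1 3)
  have b6 := b5.add (hb 1 4)
  have b7 := b6.add (hb 2 3)
  have b8 := b7.add (hb 2 4)
  have b9 := b8.add (hb 3 4)
  have h1 := M_mono hN hU ((bd_five θ).const_mul 7776000000000) b9 key
  rw [M_const_mul hN hU (bd_five θ), M_add hN hU b8 (hb 3 4), M_add hN hU b7 (hb 2 4), M_add hN hU b6 (hb 2 3),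
    M_add hN hU b5 (hb 1 4), M_add hN hU b4 (hb 1 3), M_add hN hU b3 (hb 1 2), M_add hN hU b2 (hb 0 4),
    M_add hN hU b1 (hb 0 3), M_add hN hU (hb 0 1) (hb 0 2)] at h1
  have hg : ∀ i j : Fin 5, i ≠ j → (M (nm K) U fun v => g (r (Real.cos (θ i v))) (r (Real.cos (θ j v)))) = gm :=
    fun i j hij => M_g hU (hp i j hij)
  rw [hg 0 1 (by decide), hg 0 2 (by decide), hg 0 3 (by decide), hg 0 4 (by decide), hg 1 2 (by decide),
    hg 1 3 (by decide), hg 1 4 (by decide), hg 2 3 (by decide), hg 2 4 (by decide), hg 3 4 (by decide)] at h1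
  have h2 := gm_lt
  linarith

include hU in
/-- the same with a bounded weight -/
theorem M_five_lt {θ : Fin 5 → HeightOneSpectrum (𝓞 K) → ℝ} (hp : ∀ i j, i ≠ j → PL (θ i) (θ j))
    {w : HeightOneSpectrum (𝓞 K) → ℝ} (hw : ∀ v, |w v| ≤ 1) :
    |M (nm K) U fun v => (∏ i, (2 * Real.cos (θ i v))) * w v| < 99 / 100 := by
  have hN := sysF K
  have hbw : Bd w := ⟨1, hw⟩
  have hb : Bd fun v => (∏ i, (2 * Real.cos (θ i v))) * w v :=
    Bd.mul (bd_prod (θ := θ) Finset.univ (f := fun _ x => 2 * x) fun _ => by fun_prop) hbw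
  have hle : ∀ v, |(∏ i, (2 * Real.cos (θ i v))) * w v| ≤ ∏ i, r (Real.cos (θ i v)) := by
    intro v
    rw [abs_mul, Finset.abs_prod]
    have h0 : 0 ≤ ∏ i, |2 * Real.cos (θ i v)| := Finset.prod_nonneg fun _ _ => abs_nonneg _
    calc (∏ i, |2 * Real.cos (θ i v)|) * |w v| ≤ (∏ i, |2 * Real.cos (θ i v)|) * 1 :=
          mul_le_mul_of_nonneg_left (hw v) h0
      _ = _ := by rw [mul_one]; rfl
  have h1 := M_mono hN hU hb (bd_five θ) fun v => (abs_le.1 (hle v)).2
  have h2 := M_mono hN hU (bd_five θ).neg hb fun v => (abs_le.1 (hle v)).1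
  rw [M_neg hN hU (bd_five θ)] at h2
  have h3 := M_abs_lt hU hp
  rw [abs_lt]
  constructor <;> linarith

end Pool.Agent.H50.FV
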